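import Pool.Agent.helper97.AS.Spec

/-!
# Row CO1 (project AS, MP_c8175e_co): counting abelian squares by classes, one more square
-/

set_option autoImplicit false

namespace Pool.Agent.helper97.AS

open Pool.Agent.helper20.LB (Step F IsSq Same Bd co)

theorem CO1_refl (f : ℤ → ℤ) (s : ℤ × ℤ) : Same f s s := ⟨rfl, fun _ _ _ => rfl⟩

theorem CO1_symm {f : ℤ → ℤ} {s t : ℤ × ℤ} (h : Same f s t) : Same f t s := by
  refine ⟨h.1.symm, fun j h1 h2 => (h.2 j ?_ ?_).symm⟩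
  · rw [h.1]; exact h1
  · rw [h.1]; exact h2

theorem CO1_trans {f : ℤ → ℤ} {s t u : ℤ × ℤ} (h : Same f s t) (h' : Same f t u) : Same f s u := by
  refine ⟨h.1.trans h'.1, fun j h1 h2 => (h.2 j h1 h2).trans (h'.2 j ?_ ?_)⟩
  · rw [← h.1]; exact h1
  · rw [← h.1]; exact h2

theorem CO1_level {f : ℤ → ℤ} {x y t t' : ℤ} {s s' : ℤ × ℤ} (h : Cls f x y t s) (h' : Cls f x y t' s')
    (hS : Same f s s') : t = t' := by
  obtain ⟨⟨hr, -, -, -⟩, -, hl⟩ := h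
  obtain ⟨-, -, hl'⟩ := h'
  have h1 := hS.2 s.2 (by omega) le_rfl
  have h2 := hS.1
  rw [hl, h2, hl'] at h1
  exact h1

theorem CO1_mixed {f : ℤ → ℤ} {x y t t' : ℤ} {s s' : ℤ × ℤ} (h : Cls f x y t s) (h' : Cls (co f) x y t' s')
    (hS : Same f s s') : False := by
  have h1 := hS.2 1 (by have := h.1.1; omega) h.1.1
  have h2 := h.2.1
  have h3 := h'.2.1
  unfold co at h3
  omega

theorem CO1_sq {f : ℤ → ℤ} {x y : ℤ} {s : ℤ × ℤ} : Sq (co f) x y s ↔ Sq f x y s := by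
  constructor
  · rintro ⟨h1, h2, h3, h4⟩
    refine ⟨h1, h2, h3, ?_⟩
    unfold F co at h4
    unfold F
    omega
  · rintro ⟨h1, h2, h3, h4⟩
    refine ⟨h1, h2, h3, ?_⟩
    unfold F at h4
    unfold F co
    omega

theorem CO1_same {f : ℤ → ℤ} {s t : ℤ × ℤ} : Same (co f) s t ↔ Same f s t := by
  constructor
  · rintro ⟨h1, h2⟩
    refine ⟨h1, fun j h3 h4 => ?_⟩
    have h5 := h2 j h3 h4
    unfold co at h5
    omega
  · rintro ⟨h1, h2⟩
    refine ⟨h1, fun j h3 h4 => ?_⟩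
    have h5 := h2 j h3 h4
    unfold co
    omega

theorem CO1_coco (f : ℤ → ℤ) : co (co f) = f := by
  funext z
  unfold co
  omega

theorem CO1_step {f : ℤ → ℤ} (h : Step f) : Step (co f) := by
  intro z
  have := h z
  unfold co
  omega

theorem CO1_one {f : ℤ → ℤ} (hst : Step f) {x y t : ℤ} {s : ℤ × ℤ} (h : Cls f x y t s) : 1 ≤ t := by
  have hm : Monotone f := monotone_int_of_le_succ fun n => (hst n).1
  obtain ⟨⟨hr, -, -, -⟩, h1, hl⟩ := h
  have h2 : f (s.1 + 1) ≤ f (s.1 + s.2) := hm (by omega)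
  omega

theorem CO1_main (f : ℤ → ℤ) (x y : ℤ) (Kb Ka : ℕ) (hst : Step f)
    (hS : ∀ t : ℤ, 1 ≤ t → t ≤ Kb → ∃ s, Cls f x y t s)
    (hR : ∀ t : ℤ, 1 ≤ t → t ≤ Ka → ∃ s, Cls (co f) x y t s)
    (hE : Ext f x y Kb) : Cnt f x y (Kb + Ka + 1) := by
  classical
  have hS' : ∀ t : ℤ, ∃ s, 1 ≤ t → t ≤ Kb → Cls f x y t s := by
    intro t
    by_cases h : 1 ≤ t ∧ t ≤ Kb
    · obtain ⟨s, hs⟩ := hS t h.1 h.2
      exact ⟨s, fun _ _ => hs⟩
    · exact ⟨(0, 0), fun h1 h2 => absurd ⟨h1, h2⟩ h⟩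
  have hR' : ∀ t : ℤ, ∃ s, 1 ≤ t → t ≤ Ka → Cls (co f) x y t s := by
    intro t
    by_cases h : 1 ≤ t ∧ t ≤ Ka
    · obtain ⟨s, hs⟩ := hR t h.1 h.2
      exact ⟨s, fun _ _ => hs⟩
    · exact ⟨(0, 0), fun h1 h2 => absurd ⟨h1, h2⟩ h⟩
  choose S hSS using hS'
  choose R hRR using hR'
  obtain ⟨A, hA⟩ : ∃ A : Finset (ℤ × ℤ), A = (Finset.Icc (1 : ℤ) Kb).image S ∪ (Finset.Icc (1 : ℤ) Ka).image R := ⟨_, rfl⟩
  have hAmem : ∀ a ∈ A, (∃ t : ℤ, 1 ≤ t ∧ t ≤ Kb ∧ S t = a) ∨ ∃ t : ℤ, 1 ≤ t ∧ t ≤ Ka ∧ R t = a := by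
    intro a ha
    rw [hA, Finset.mem_union, Finset.mem_image, Finset.mem_image] at ha
    rcases ha with ⟨t, ht, e⟩ | ⟨t, ht, e⟩
    · rw [Finset.mem_Icc] at ht
      exact Or.inl ⟨t, ht.1, ht.2, e⟩
    · rw [Finset.mem_Icc] at ht
      exact Or.inr ⟨t, ht.1, ht.2, e⟩
  have hAsq : ∀ a ∈ A, Sq f x y a := by
    intro a ha
    rcases hAmem a ha with ⟨t, h1, h2, rfl⟩ | ⟨t, h1, h2, rfl⟩
    · exact (hSS t h1 h2).1
    · exact CO1_sq.1 (hRR t h1 h2).1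
  have hAsame : ∀ a ∈ A, ∀ b ∈ A, Same f a b → a = b := by
    intro a ha b hb hab
    rcases hAmem a ha with ⟨t, h1, h2, rfl⟩ | ⟨t, h1, h2, rfl⟩ <;>
      rcases hAmem b hb with ⟨t', h3, h4, rfl⟩ | ⟨t', h3, h4, rfl⟩
    · rw [CO1_level (hSS t h1 h2) (hSS t' h3 h4) hab]
    · exact (CO1_mixed (hSS t h1 h2) (hRR t' h3 h4) hab).elim
    · exact (CO1_mixed (hSS t' h3 h4) (hRR t h1 h2) (CO1_symm hab)).elim
    · rw [CO1_level (hRR t h1 h2) (hRR t' h3 h4) (CO1_same.2 hab)]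
  have hAcard : A.card = Kb + Ka := by
    rw [hA, Finset.card_union_of_disjoint, Finset.card_image_of_injOn, Finset.card_image_of_injOn, Int.card_Icc, Int.card_Icc]
    · simp
    · intro t ht t' ht' e
      rw [Finset.coe_Icc, Set.mem_Icc] at ht ht'
      refine CO1_level (hRR t ht.1 ht.2) (hRR t' ht'.1 ht'.2) ?_
      rw [e]
      exact CO1_refl _ _
    · intro t ht t' ht' e
      rw [Finset.coe_Icc, Set.mem_Icc] at ht ht'
      refine CO1_level (hSS t ht.1 ht.2) (hSS t' ht'.1 ht'.2) ?_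
      rw [e]
      exact CO1_refl _ _
    · rw [Finset.disjoint_left]
      intro a ha hb
      rw [Finset.mem_image] at ha hb
      obtain ⟨t, ht, e⟩ := ha
      obtain ⟨t', ht', e'⟩ := hb
      rw [Finset.mem_Icc] at ht ht'
      refine CO1_mixed (hSS t ht.1 ht.2) (hRR t' ht'.1 ht'.2) ?_
      rw [e, e']
      exact CO1_refl _ _
  have hext : ∀ (t : ℤ) (s : ℤ × ℤ), Cls f x y t s → (∀ t' : ℤ, 1 ≤ t' → t' ≤ Kb → ¬ Same f s (S t')) →
      ∀ a ∈ A, ¬ Same f s a := by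
    intro t s hs h a ha hsa
    rcases hAmem a ha with ⟨t', h1, h2, rfl⟩ | ⟨t', h1, h2, rfl⟩
    · exact h t' h1 h2 hsa
    · exact CO1_mixed hs (hRR t' h1 h2) hsa
  have hbig : ∀ (t : ℤ) (s : ℤ × ℤ), (Kb : ℤ) < t → Cls f x y t s → ∃ u, Sq f x y u ∧ ∀ a ∈ A, ¬ Same f u a := by
    intro t s ht hs
    refine ⟨s, hs.1, hext t s hs fun t' h1 h2 h3 => ?_⟩
    have := CO1_level hs (hSS t' h1 h2) h3
    omega
  obtain ⟨u, hu, huA⟩ : ∃ u, Sq f x y u ∧ ∀ a ∈ A, ¬ Same f u a := by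
    rcases hE with ⟨t, s, ht, hs⟩ | ⟨t, s, s', hs, hs', hss⟩
    · exact hbig t s ht hs
    · by_cases ht : (Kb : ℤ) < t
      · exact hbig t s ht hs
      · have ht1 : 1 ≤ t := CO1_one hst hs
        have ht2 : t ≤ Kb := not_lt.1 ht
        by_cases h1 : Same f s (S t)
        · refine ⟨s', hs'.1, hext t s' hs' fun t' h3 h4 h5 => ?_⟩
          have e := CO1_level hs' (hSS t' h3 h4) h5
          rw [← e] at h5
          exact hss (CO1_trans h1 (CO1_symm h5))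
        · refine ⟨s, hs.1, hext t s hs fun t' h3 h4 h5 => ?_⟩
          have e := CO1_level hs (hSS t' h3 h4) h5
          rw [← e] at h5
          exact h1 h5
  have huA' : u ∉ A := fun h => huA u h (CO1_refl f u)
  refine ⟨insert u A, ?_, ?_, ?_⟩
  · intro s hs
    rw [Finset.mem_insert] at hs
    rcases hs with rfl | hs
    · exact hu
    · exact hAsq s hs
  · intro s hs t ht hst'
    rw [Finset.mem_insert] at hs ht
    rcases hs with rfl | hs <;> rcases ht with rfl | ht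
    · rfl
    · exact (huA t ht hst').elim
    · exact (huA s hs (CO1_symm hst')).elim
    · exact hAsame s hs t ht hst'
  · rw [Finset.card_insert_of_notMem huA', hAcard]

theorem CO1 : CO1_stmt := by
  intro f x y Kb Ka hst hS hR hE
  rcases hE with hE | hE
  · exact CO1_main f x y Kb Ka hst hS hR hE
  · obtain ⟨A, h1, h2, h3⟩ := CO1_main (co f) x y Ka Kb (CO1_step hst) hR (by rw [CO1_coco]; exact hS) hE
    refine ⟨A, fun s hs => CO1_sq.1 (h1 s hs), fun s hs t ht hst' => h2 s hs t ht (CO1_same.2 hst'), ?_⟩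
    omega

end Pool.Agent.helper97.AS
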